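import Pool.Agent.K1H42.HP.Stm

/-!
# Weak Erdos-Ko-Rado theorem by partial spreads (pieces S_EKR and S_EKRH of helper42's project HP)
-/

set_option autoImplicit false

namespace Pool.Agent.K1H26.HP

open Module Finset Pool.Agent.K1H42.HP

section aut

variable {F V : Type} [Field F] [AddCommGroup V] [Module F V] [Finite V]

instance finAut : Finite (V ≃ₗ[F] V) :=
  Finite.of_injective (fun e : V ≃ₗ[F] V => (e : V → V)) DFunLike.coe_injective

/-- automorphisms act transitively on the subspaces of a given dimension -/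
lemma trans {W W' : Submodule F V} (h : finrank F W = finrank F W') :
    ∃ g : V ≃ₗ[F] V, W.map (g : V →ₗ[F] V) = W' := by
  obtain ⟨f⟩ : Nonempty (W ≃ₗ[F] W') := ⟨LinearEquiv.ofFinrankEq _ _ h⟩
  obtain ⟨g, hg⟩ := Submodule.exists_linearEquiv_restrict_eq f
  refine ⟨g, ?_⟩
  ext y
  rw [Submodule.mem_map]
  constructor
  · rintro ⟨x, hx, rfl⟩
    have := hg ⟨x, hx⟩
    change g x ∈ W'
    rw [← this]
    exact (f ⟨x, hx⟩).2
  · intro hy
    refine ⟨(f.symm ⟨y, hy⟩ : V), (f.symm ⟨y, hy⟩).2, ?_⟩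
    have := hg (f.symm ⟨y, hy⟩)
    rw [LinearEquiv.apply_symm_apply] at this
    exact this.symm

open Classical in
/-- the automorphisms that map `U` to `W` -/
noncomputable def tr (U W : Submodule F V) : Finset (V ≃ₗ[F] V) :=
  (Set.toFinite {g : V ≃ₗ[F] V | U.map (g : V →ₗ[F] V) = W}).toFinset

lemma mem_tr {U W : Submodule F V} {g : V ≃ₗ[F] V} :
    g ∈ tr U W ↔ U.map (g : V →ₗ[F] V) = W := by
  simp [tr]

/-- all automorphisms -/
noncomputable def aut (F V : Type) [Field F] [AddCommGroup V] [Module F V] [Finite V] :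
    Finset (V ≃ₗ[F] V) := (Set.toFinite (Set.univ : Set (V ≃ₗ[F] V))).toFinset

lemma mem_aut (g : V ≃ₗ[F] V) : g ∈ aut F V := by simp [aut]

lemma card_tr_le {U W W' : Submodule F V} (h : finrank F W = finrank F W') :
    #(tr U W) ≤ #(tr U W') := by
  obtain ⟨g, hg⟩ := trans h
  refine Finset.card_le_card_of_injOn (fun e => e.trans g) ?_ ?_
  · intro e he
    rw [Finset.mem_coe, mem_tr] at he ⊢
    rw [LinearEquiv.coe_trans, Submodule.map_comp, he, hg]
  · intro e _ e' _ hee
    have h2 : e.trans g = e'.trans g := hee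
    ext x
    have := LinearEquiv.congr_fun h2 x
    simpa using this

lemma card_tr_eq {U W W' : Submodule F V} (h : finrank F W = finrank F W') :
    #(tr U W) = #(tr U W') := le_antisymm (card_tr_le h) (card_tr_le h.symm)

omit [Finite V] in
lemma finrank_map (g : V ≃ₗ[F] V) (U : Submodule F V) :
    finrank F (U.map (g : V →ₗ[F] V)) = finrank F U := by
  exact LinearEquiv.finrank_map_eq g U

/-- double counting: the automorphisms that map `U` into the family `𝓕` -/
lemma sum_tr {k : ℕ} {U : Submodule F V} (hU : finrank F U = k) (𝓕 : Finset (Submodule F V))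
    (h𝓕 : 𝓕 ⊆ Gr F V k) :
    (∑ W ∈ 𝓕, #(tr U W)) * #(Gr F V k) = #𝓕 * #(aut F V) := by
  classical
  have h1 : #(aut F V) = ∑ W ∈ Gr F V k, #(tr U W) := by
    rw [← Finset.card_biUnion]
    · congr 1
      ext g
      rw [Finset.mem_biUnion]
      refine ⟨fun _ => ⟨U.map (g : V →ₗ[F] V), ?_, mem_tr.2 rfl⟩, fun _ => mem_aut g⟩
      rw [mem_Gr, finrank_map, hU]
    · intro W _ W' _ hne
      rw [Function.onFun, Finset.disjoint_left]
      intro g hg hg'
      rw [mem_tr] at hg hg'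
      exact hne (hg.symm.trans hg')
  have h2 : ∀ W ∈ Gr F V k, #(tr U W) = #(tr U U) := fun W hW =>
    card_tr_eq (by rw [mem_Gr.1 hW, hU])
  rw [h1, Finset.sum_congr rfl h2, Finset.sum_congr rfl (fun W hW => h2 W (h𝓕 hW)),
    Finset.sum_const, Finset.sum_const]
  simp only [smul_eq_mul]
  ring

/-- a partial spread bounds an intersecting family -/
lemma spread {k : ℕ} {ι : Type} [Fintype ι] (S : ι → Submodule F V)
    (hS : ∀ a, finrank F (S a) = k) (hdis : ∀ a b, a ≠ b → S a ⊓ S b = ⊥)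
    (𝓕 : Finset (Submodule F V)) (h𝓕 : 𝓕 ⊆ Gr F V k) (hint : IsInt 𝓕) :
    Fintype.card ι * #𝓕 ≤ #(Gr F V k) := by
  classical
  have h1 : ∑ a : ι, ∑ W ∈ 𝓕, #(tr (S a) W) ≤ #(aut F V) := by
    have h2 : ∀ a : ι, ∑ W ∈ 𝓕, #(tr (S a) W) =
        #((aut F V).filter fun g : V ≃ₗ[F] V => (S a).map (g : V →ₗ[F] V) ∈ 𝓕) := by
      intro a
      rw [← Finset.card_biUnion]
      · congr 1
        ext g
        rw [Finset.mem_biUnion, Finset.mem_filter]
        constructor
        · rintro ⟨W, hW, hg⟩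
          rw [mem_tr] at hg
          exact ⟨mem_aut g, by rw [hg]; exact hW⟩
        · rintro ⟨_, hg⟩
          exact ⟨_, hg, mem_tr.2 rfl⟩
      · intro W _ W' _ hne
        rw [Function.onFun, Finset.disjoint_left]
        intro g hg hg'
        rw [mem_tr] at hg hg'
        exact hne (hg.symm.trans hg')
    rw [Finset.sum_congr rfl fun a _ => h2 a, ← Finset.card_biUnion]
    · exact Finset.card_le_card fun g _ => mem_aut g
    · intro a _ b _ hab
      rw [Function.onFun, Finset.disjoint_left]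
      intro g hg hg'
      rw [Finset.mem_filter] at hg hg'
      apply hint _ hg.2 _ hg'.2
      rw [← Submodule.map_inf (g : V →ₗ[F] V) g.injective, hdis a b hab, Submodule.map_bot]
  have h3 : (∑ a : ι, ∑ W ∈ 𝓕, #(tr (S a) W)) * #(Gr F V k) =
      Fintype.card ι * (#𝓕 * #(aut F V)) := by
    rw [Finset.sum_mul, Finset.sum_congr rfl fun a _ => sum_tr (hS a) 𝓕 h𝓕, Finset.sum_const,
      smul_eq_mul, Finset.card_univ]
  have h4 : 0 < #(aut F V) := Finset.card_pos.2 ⟨LinearEquiv.refl F V, mem_aut _⟩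
  have h5 : Fintype.card ι * (#𝓕 * #(aut F V)) ≤ #(aut F V) * #(Gr F V k) := by
    rw [← h3]
    exact Nat.mul_le_mul_right _ h1
  have h6 : Fintype.card ι * #𝓕 * #(aut F V) ≤ #(Gr F V k) * #(aut F V) := by
    calc Fintype.card ι * #𝓕 * #(aut F V) = Fintype.card ι * (#𝓕 * #(aut F V)) := by ring
      _ ≤ #(aut F V) * #(Gr F V k) := h5
      _ = _ := by ring
  exact Nat.le_of_mul_le_mul_right h6 h4

end aut

/-- a partial spread with `q^k` members -/
lemma exists_spread {F V : Type} [Field F] [Fintype F] [AddCommGroup V] [Module F V] [Finite V]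
    {k : ℕ} (hk : 1 ≤ k) (h2k : 2 * k ≤ finrank F V) :
    ∃ (ι : Type) (_ : Fintype ι) (S : ι → Submodule F V), Fintype.card ι = Fintype.card F ^ k ∧
      (∀ a, finrank F (S a) = k) ∧ ∀ a b, a ≠ b → S a ⊓ S b = ⊥ := by
  obtain ⟨p, hp⟩ := CharP.exists F
  have : Fact p.Prime := ⟨CharP.char_is_prime F p⟩
  have : NeZero k := ⟨by omega⟩
  let K := FiniteField.Extension F p k
  have : Fintype K := Fintype.ofFinite K
  have hK : finrank F K = k := FiniteField.finrank_extension F p k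
  have hcard : Fintype.card K = Fintype.card F ^ k := by
    rw [← Nat.card_eq_fintype_card, ← Nat.card_eq_fintype_card]
    exact FiniteField.natCard_extension F p k
  have hKK : finrank F (K × K) ≤ finrank F V := by
    rw [finrank_prod, hK]; omega
  have : Module.Finite F V := Module.Finite.of_finite
  obtain ⟨j, hj⟩ := finrank_le_iff_exists_linearMap.1 hKK
  refine ⟨K, inferInstance, fun a => ((LinearMap.mulLeft F a).graph).map j, hcard, ?_, ?_⟩
  · intro a
    rw [← (Submodule.equivMapOfInjective j hj _).finrank_eq, LinearMap.graph_eq_range_prod,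
      LinearMap.finrank_range_of_inj, hK]
    intro x y hxy
    exact congrArg Prod.fst hxy
  · intro a b hab
    rw [← Submodule.map_inf _ hj]
    have : (LinearMap.mulLeft F a).graph ⊓ (LinearMap.mulLeft F b).graph = ⊥ := by
      rw [eq_bot_iff]
      rintro ⟨x, y⟩ ⟨h1, h2⟩
      have h1' : y = a * x := (LinearMap.mem_graph_iff _ _).1 h1
      have h2' : y = b * x := (LinearMap.mem_graph_iff _ _).1 h2
      have h3 : (a - b) * x = 0 := by rw [sub_mul, ← h1', ← h2', sub_self]
      rcases mul_eq_zero.1 h3 with h | h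
      · exact absurd (sub_eq_zero.1 h) hab
      · subst h
        rw [mul_zero] at h1'
        subst h1'
        exact Submodule.zero_mem _
    rw [this, Submodule.map_bot]

theorem t_EKR : S_EKR := by
  intro F _ _ V _ _ _ q n k hq hn h2k hk 𝓕 h𝓕 hint
  obtain ⟨ι, _, S, hcard, hS, hdis⟩ := exists_spread (F := F) (V := V) hk (by omega)
  have h := spread S hS hdis 𝓕 h𝓕 hint
  rw [hcard, hq] at h
  exact_mod_cast h

lemma D_step {q n k : ℕ} (hq : 2 ≤ q) (hn : k < n) :
    (q : ℝ) ^ k * D q (n - 1) k 0 ≤ D q n k 0 := by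
  have hq1 : (1 : ℝ) < q := by exact_mod_cast hq
  have h1 : (q : ℝ) ^ k * D q (n - 1) k 0 = ∏ i ∈ Finset.Ico 0 k,
      ((q : ℝ) * (((q : ℝ) ^ (n - 1) - (q : ℝ) ^ i) / ((q : ℝ) ^ k - (q : ℝ) ^ i))) := by
    rw [Finset.prod_mul_distrib, Finset.prod_const, Nat.card_Ico, Nat.sub_zero]
    rfl
  rw [h1, D]
  refine Finset.prod_le_prod (fun i hi => ?_) (fun i hi => ?_)
  · rw [Finset.mem_Ico] at hi
    have h2 : (0 : ℝ) < (q : ℝ) ^ k - (q : ℝ) ^ i :=
      sub_pos.2 (pow_lt_pow_right₀ hq1 hi.2)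
    have h3 : (0 : ℝ) ≤ (q : ℝ) ^ (n - 1) - (q : ℝ) ^ i :=
      sub_nonneg.2 (pow_le_pow_right₀ hq1.le (by omega))
    positivity
  · rw [Finset.mem_Ico] at hi
    have h2 : (0 : ℝ) < (q : ℝ) ^ k - (q : ℝ) ^ i :=
      sub_pos.2 (pow_lt_pow_right₀ hq1 hi.2)
    rw [← mul_div_assoc]
    refine div_le_div_of_nonneg_right ?_ h2.le
    have h4 : (q : ℝ) ^ n = q * (q : ℝ) ^ (n - 1) := by
      rw [← pow_succ']
      congr 1
      omega
    have h5 : (0 : ℝ) ≤ (q : ℝ) ^ i := by positivity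
    rw [h4, mul_sub]
    nlinarith

theorem t_EKRH (hC : S_COUNT) : S_EKRH := by
  classical
  intro F _ _ V _ _ _ q n k hq hn h2k hk 𝓕 h𝓕 hint H hH
  rw [mem_Gr] at hH
  have hle : ∀ A ∈ below 𝓕 H, A ≤ H := fun A hA => (mem_below.1 hA).2
  set 𝓖 : Finset (Submodule F H) := (below 𝓕 H).image (fun A => A.comap H.subtype) with h𝓖
  have hinj : Set.InjOn (fun A : Submodule F V => A.comap H.subtype) (below 𝓕 H : Set _) := by
    intro A hA B hB hAB
    have hAB' : A.comap H.subtype = B.comap H.subtype := hAB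
    have h1 := congrArg (Submodule.map H.subtype) hAB'
    rw [Submodule.map_comap_subtype, Submodule.map_comap_subtype,
      inf_eq_right.2 (hle A hA), inf_eq_right.2 (hle B hB)] at h1
    exact h1
  have hcard : #𝓖 = #(below 𝓕 H) := Finset.card_image_of_injOn hinj
  have hfr : ∀ A ≤ H, finrank F (A.comap H.subtype) = finrank F A := by
    intro A hA
    rw [← Submodule.finrank_map_subtype_eq, Submodule.map_comap_subtype, inf_eq_right.2 hA]
  have h𝓖s : 𝓖 ⊆ Gr F H k := by
    intro B hB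
    rw [h𝓖, Finset.mem_image] at hB
    obtain ⟨A, hA, rfl⟩ := hB
    rw [mem_Gr, hfr A (hle A hA)]
    exact mem_Gr.1 (h𝓕 (mem_below.1 hA).1)
  have h𝓖i : IsInt 𝓖 := by
    intro B hB B' hB'
    rw [h𝓖, Finset.mem_image] at hB hB'
    obtain ⟨A, hA, rfl⟩ := hB
    obtain ⟨A', hA', rfl⟩ := hB'
    intro h0
    apply hint A (mem_below.1 hA).1 A' (mem_below.1 hA').1
    have h1 := congrArg (Submodule.map H.subtype) h0
    rw [← Submodule.comap_inf, Submodule.map_comap_subtype, Submodule.map_bot,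
      inf_eq_right.2 (inf_le_left.trans (hle A hA))] at h1
    exact h1
  have h1 := t_EKR F H q (n - 1) k hq hH (by omega) hk 𝓖 h𝓖s h𝓖i
  have h2 := hC F H q (n - 1) k hq hH (by omega) ⊥ (by simp)
  rw [finrank_bot] at h2
  have h3 : dg (Gr F H k) ⊥ = (#(Gr F H k) : ℝ) := by
    rw [dg]
    congr 2
    ext A
    simp
  rw [h3] at h2
  rw [h2, hcard] at h1
  have hq2 : 2 ≤ q := by rw [← hq]; exact Fintype.one_lt_card
  have h4 := D_step (q := q) (n := n) (k := k) hq2 (by omega)
  have h5 : (0 : ℝ) ≤ (q : ℝ) ^ k := by positivity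
  calc (q : ℝ) ^ (2 * k) * ((below 𝓕 H).card : ℝ) =
        (q : ℝ) ^ k * ((q : ℝ) ^ k * ((below 𝓕 H).card : ℝ)) := by
        rw [two_mul, pow_add]; ring
    _ ≤ (q : ℝ) ^ k * D q (n - 1) k 0 := mul_le_mul_of_nonneg_left h1 h5
    _ ≤ D q n k 0 := h4

end Pool.Agent.K1H26.HP
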